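import Pool.Agent.Helper24.NR.Defs
import Pool.Agent.Helper93.UX.Defs
import Pool.Agent.Helper56.UG.Cv

/-!
# NR, block W2: the number of the zeros in the window

From `TX1` with `q = 1` and Markov's inequality.
-/

set_option autoImplicit false
open MeasureTheory Set Filter Topology
open Pool.Agent.Helper57.Zeta Pool.Agent.Helper57.LH Pool.Agent.Helper57.ED
open Pool.Agent.Helper54.LG (za zb qk SS MM)
open Pool.Agent.Helper93.UG (zc sp)
open Pool.Agent.Helper69.UG (XX NX)
open Pool.Agent.Helper57.TX (QX DP rs)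
open Pool.Agent.Helper24.NR

namespace Pool.Agent.Helper21.NR

/-- Markov's inequality for a set in an interval -/
private lemma markov {f : ℝ → ℝ} {a b ε I : ℝ} (hf0 : ∀ x, 0 ≤ f x) (hf : IntegrableOn f (Icc a b))
    (hI : ∫ t in Icc a b, f t ≤ I) (hε : 0 < ε) :
    volume ({x | ε ≤ f x} ∩ Icc a b) ≤ ENNReal.ofReal (I / ε) := by
  have h1 := mul_meas_ge_le_integral_of_nonneg (μ := volume.restrict (Icc a b)) (Eventually.of_forall hf0) hf ε
  have h2 : (volume.restrict (Icc a b)) {x | ε ≤ f x} = volume ({x | ε ≤ f x} ∩ Icc a b) :=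
    Measure.restrict_apply' measurableSet_Icc
  have h3 : volume ({x | ε ≤ f x} ∩ Icc a b) ≠ ⊤ := by
    refine ne_top_of_le_ne_top ?_ (measure_mono inter_subset_right)
    rw [Real.volume_Icc]
    exact ENNReal.ofReal_ne_top
  have h4 : ε * (volume ({x | ε ≤ f x} ∩ Icc a b)).toReal ≤ I := by
    have h5 : (volume.restrict (Icc a b)).real {x | ε ≤ f x} = (volume ({x | ε ≤ f x} ∩ Icc a b)).toReal := by
      rw [Measure.real, h2]
    rw [← h5]
    exact h1.trans hI
  rw [← ENNReal.ofReal_toReal h3]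
  refine ENNReal.ofReal_le_ofReal ?_
  rw [le_div_iff₀ hε]
  linarith

/-- W2: the number of the zeros in the window -/
theorem win_count_of (h1 : Pool.Agent.Helper93.UX.TX1) : ∃ C T₀ : ℝ, 1 ≤ C ∧ ∀ T L : ℝ, T₀ ≤ T → C ≤ L → L ≤ Real.log T →
    volume {t : ℝ | t ∈ Icc (T / 2) (3 * T) ∧ L ^ (1 / 8 : ℝ) < (zc (Wn T L 2 t) : ℝ)} ≤
      ENNReal.ofReal (C * L ^ (-(1 / 16) : ℝ) * T) := by
  obtain ⟨C, d, T₀, hC, hd, h⟩ := h1 1
  refine ⟨28 * C + 10 ^ 17, max (max T₀ 100) (Real.exp (max 1 ((10 / d) ^ (16 / 7 : ℝ)))), by linarith, fun T L hT hL hLT => ?_⟩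
  have hT0 : T₀ ≤ T := (le_max_left _ _).trans ((le_max_left _ _).trans hT)
  have hT1 : (100:ℝ) ≤ T := (le_max_right _ _).trans ((le_max_left _ _).trans hT)
  have hTe : Real.exp (max 1 ((10 / d) ^ (16 / 7 : ℝ))) ≤ T := (le_max_right _ _).trans hT
  have hlog : max 1 ((10 / d) ^ (16 / 7 : ℝ)) ≤ Real.log T := by
    rw [Real.le_log_iff_exp_le (by linarith)]
    exact hTe
  set x : ℝ := Real.log T with hx
  have hx1 : 1 ≤ x := (le_max_left _ _).trans hlog
  have hx2 : (10 / d) ^ (16 / 7 : ℝ) ≤ x := (le_max_right _ _).trans hlog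
  have hL17 : (10:ℝ) ^ 17 ≤ L := by linarith
  have hL1 : (1:ℝ) ≤ L := by linarith
  have hL0 : (0:ℝ) < L := by linarith
  -- the window
  set w : ℝ := L ^ (1 / 16 : ℝ) with hw
  have hw0 : 0 < w := Real.rpow_pos_of_pos hL0 _
  have hw10 : (10:ℝ) ≤ w := by
    have e1 : ((10:ℝ) ^ 16) ^ (1 / 16 : ℝ) = 10 := by
      rw [← Real.rpow_natCast, ← Real.rpow_mul (by norm_num)]
      norm_num
    calc (10:ℝ) = ((10:ℝ) ^ 16) ^ (1 / 16 : ℝ) := e1.symm
      _ ≤ w := Real.rpow_le_rpow (by norm_num) (by linarith) (by norm_num)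
  have hwx : w ≤ x ^ (1 / 16 : ℝ) := Real.rpow_le_rpow hL0.le hLT (by norm_num)
  have hL8 : L ^ (1 / 8 : ℝ) = w ^ 2 := by
    rw [hw, ← Real.rpow_natCast, ← Real.rpow_mul hL0.le]
    norm_num
  have hLm : L ^ (-(1 / 16) : ℝ) = w⁻¹ := by
    rw [hw, Real.rpow_neg hL0.le]
  set c : ℝ := 4 * w + 1 with hc
  have hc1 : 1 ≤ c := by linarith
  have hlx : Real.log x ≤ 2 * x ^ (1 / 2 : ℝ) := by
    have e := Real.log_le_rpow_div (x := x) (by linarith) (ε := 1 / 2) (by norm_num)
    linarith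
  have hcd : c ≤ d * (Real.log T / Real.log (Real.log T)) := by
    rw [← hx]
    rcases le_or_gt (Real.log x) 0 with hz | hz
    · exfalso
      have : x ≤ 1 := by
        by_contra hh
        push Not at hh
        exact absurd (Real.log_pos hh) (not_lt.2 hz)
      have : L ≤ 1 := hLT.trans this
      linarith
    · rw [mul_div_assoc', le_div_iff₀ hz]
      have e1 : c ≤ 5 * x ^ (1 / 16 : ℝ) := by linarith
      have e2 : (10 / d) ≤ x ^ (7 / 16 : ℝ) := by
        have e3 : ((10 / d) ^ (16 / 7 : ℝ)) ^ (7 / 16 : ℝ) = 10 / d := by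
          rw [← Real.rpow_mul (by positivity)]
          norm_num
        rw [← e3]
        exact Real.rpow_le_rpow (by positivity) hx2 (by norm_num)
      have e4 : x ^ (1 / 16 : ℝ) * x ^ (1 / 2 : ℝ) * x ^ (7 / 16 : ℝ) = x := by
        rw [← Real.rpow_add (by linarith), ← Real.rpow_add (by linarith)]
        norm_num
      have e5 : (0:ℝ) < x ^ (1 / 16 : ℝ) := Real.rpow_pos_of_pos (by linarith) _
      have e6 : (0:ℝ) < x ^ (1 / 2 : ℝ) := Real.rpow_pos_of_pos (by linarith) _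
      rw [div_le_iff₀ hd] at e2
      calc c * Real.log x ≤ (5 * x ^ (1 / 16 : ℝ)) * (2 * x ^ (1 / 2 : ℝ)) :=
            mul_le_mul e1 hlx hz.le (by positivity)
        _ = 10 * (x ^ (1 / 16 : ℝ) * x ^ (1 / 2 : ℝ)) := by ring
        _ ≤ (x ^ (7 / 16 : ℝ) * d) * (x ^ (1 / 16 : ℝ) * x ^ (1 / 2 : ℝ)) :=
            mul_le_mul_of_nonneg_right e2 (by positivity)
        _ = d * (x ^ (1 / 16 : ℝ) * x ^ (1 / 2 : ℝ) * x ^ (7 / 16 : ℝ)) := by ring
        _ = d * x := by rw [e4]
  obtain ⟨hint, hmom⟩ := h T hT0 c hc1 hcd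
  have hlc : Real.log (2 + c) ≤ 5 * w := by
    have e := Real.log_le_sub_one_of_pos (x := 2 + c) (by linarith)
    linarith [hw10]
  -- the spacing
  have hsp0 : 0 < sp T := by
    unfold sp
    have := Real.pi_pos
    positivity
  set H : ℝ := 2 * w * sp T with hH
  have hH0 : 0 < H := by positivity
  have hHle : H ≤ w⁻¹ * T := by
    have e1 : sp T = 2 * Real.pi / x := rfl
    have e2 : w * w ≤ x := by
      have e3 : w * w ≤ x ^ (1 / 16 : ℝ) * x ^ (1 / 16 : ℝ) := mul_le_mul hwx hwx hw0.le (by positivity)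
      have e4 : x ^ (1 / 16 : ℝ) * x ^ (1 / 16 : ℝ) = x ^ (1 / 8 : ℝ) := by
        rw [← Real.rpow_add (by linarith)]
        norm_num
      have e5 : x ^ (1 / 8 : ℝ) ≤ x := by
        calc x ^ (1 / 8 : ℝ) ≤ x ^ (1 : ℝ) := Real.rpow_le_rpow_of_exponent_le hx1 (by norm_num)
          _ = x := Real.rpow_one x
      linarith
    have hpi : Real.pi ≤ 4 := Real.pi_le_four
    have e7 : H * w ≤ T := by
      rw [hH, e1]
      have e8 : 2 * w * (2 * Real.pi / x) * w = (4 * Real.pi) * ((w * w) / x) := by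
        field_simp
        ring
      rw [e8]
      have e9 : (w * w) / x ≤ 1 := by
        rw [div_le_one (by linarith)]
        exact e2
      have e10 : 0 ≤ (w * w) / x := by positivity
      nlinarith [Real.pi_pos]
    rw [inv_mul_eq_div, le_div_iff₀ hw0]
    exact e7
  -- the two parts
  set f : ℝ → ℝ := fun t => |(zc (Ico t (t + c * sp T)) : ℝ) - c| ^ (2 * 1) with hf
  have hsub : {t : ℝ | t ∈ Icc (T / 2) (3 * T) ∧ L ^ (1 / 8 : ℝ) < (zc (Wn T L 2 t) : ℝ)} ⊆
      Icc (T / 2) (T / 2 + H) ∪ (fun t => t + (-H)) ⁻¹' ({u | (w ^ 2 / 2) ^ 2 ≤ f u} ∩ Icc (T / 2) (3 * T)) := by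
    intro t ht
    obtain ⟨ht1, ht2⟩ := ht
    rcases le_total t (T / 2 + H) with h3 | h3
    · exact Or.inl ⟨ht1.1, h3⟩
    · refine Or.inr ⟨?_, ?_⟩
      · show (w ^ 2 / 2) ^ 2 ≤ f (t + -H)
        have e1 : Wn T L 2 t ⊆ Ico (t + -H) (t + -H + c * sp T) := by
          intro y hy
          unfold Wn at hy
          rw [← hw] at hy
          refine ⟨by rw [hH]; linarith [hy.1], lt_of_le_of_lt hy.2 ?_⟩
          rw [hH, hc]
          nlinarith
        have e2 : zc (Wn T L 2 t) ≤ zc (Ico (t + -H) (t + -H + c * sp T)) :=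
          Pool.Agent.Helper56.UG.zc_mono e1 Ico_subset_Icc_self
        have e3 : (zc (Wn T L 2 t) : ℝ) ≤ (zc (Ico (t + -H) (t + -H + c * sp T)) : ℝ) := by exact_mod_cast e2
        rw [hL8] at ht2
        have e4 : w ^ 2 / 2 ≤ (zc (Ico (t + -H) (t + -H + c * sp T)) : ℝ) - c := by
          nlinarith
        have e5 : 0 ≤ w ^ 2 / 2 := by positivity
        have e6 : w ^ 2 / 2 ≤ |(zc (Ico (t + -H) (t + -H + c * sp T)) : ℝ) - c| := e4.trans (le_abs_self _)
        show (w ^ 2 / 2) ^ 2 ≤ |(zc (Ico (t + -H) (t + -H + c * sp T)) : ℝ) - c| ^ (2 * 1)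
        rw [mul_one]
        exact pow_le_pow_left₀ e5 e6 2
      · exact ⟨by show T / 2 ≤ t + -H; linarith, by show t + -H ≤ 3 * T; linarith [ht1.2]⟩
  have hm := markov (f := f) (fun u => by positivity) hint hmom (ε := (w ^ 2 / 2) ^ 2) (by positivity)
  calc volume {t : ℝ | t ∈ Icc (T / 2) (3 * T) ∧ L ^ (1 / 8 : ℝ) < (zc (Wn T L 2 t) : ℝ)}
      ≤ volume (Icc (T / 2) (T / 2 + H)) +
        volume ((fun t => t + (-H)) ⁻¹' ({u | (w ^ 2 / 2) ^ 2 ≤ f u} ∩ Icc (T / 2) (3 * T))) :=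
        (measure_mono hsub).trans (measure_union_le _ _)
    _ ≤ ENNReal.ofReal H + ENNReal.ofReal (C * Real.log (2 + c) ^ 1 * T / (w ^ 2 / 2) ^ 2) := by
        refine add_le_add ?_ ?_
        · rw [Real.volume_Icc]
          exact ENNReal.ofReal_le_ofReal (by linarith)
        · rw [measure_preimage_add_right]
          exact hm
    _ = ENNReal.ofReal (H + C * Real.log (2 + c) ^ 1 * T / (w ^ 2 / 2) ^ 2) := by
        rw [ENNReal.ofReal_add hH0.le]
        have : 0 ≤ Real.log (2 + c) := Real.log_nonneg (by linarith)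
        have : 0 ≤ T := by linarith
        positivity
    _ ≤ _ := by
        refine ENNReal.ofReal_le_ofReal ?_
        rw [hLm]
        have hT' : 0 < T := by linarith
        have e1 : C * Real.log (2 + c) ^ 1 * T / (w ^ 2 / 2) ^ 2 ≤ 20 * C * w⁻¹ * T := by
          rw [pow_one, div_le_iff₀ (by positivity)]
          have e2 : 20 * C * w⁻¹ * T * (w ^ 2 / 2) ^ 2 = C * (5 * w) * T * w ^ 2 := by
            field_simp
            ring
          rw [e2]
          have e3 : C * Real.log (2 + c) * T ≤ C * (5 * w) * T := by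
            refine mul_le_mul_of_nonneg_right ?_ hT'.le
            exact mul_le_mul_of_nonneg_left hlc hC.le
          have e4 : C * (5 * w) * T * 1 ≤ C * (5 * w) * T * w ^ 2 := by
            refine mul_le_mul_of_nonneg_left ?_ (by positivity)
            nlinarith
          linarith
        have e5 : 0 < w⁻¹ * T := by positivity
        have e6 : 0 < C * (w⁻¹ * T) := by positivity
        nlinarith

end Pool.Agent.Helper21.NR
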